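import Pool.Agent.H31.ST.Basic

/-! BAND for MP_0b97f5_mp.  helper33 -/

open Set Filter Topology Matrix

noncomputable section

namespace H31.ST.H33

open H31.ST

theorem Cd_eq_of_curve {lam : ℝ} {w : List Sym} {u v : ℝ}
    (h : {t | t ∈ Icc (-2 : ℝ) 2 ∧ InR lam w (2, t)} = Ioo u v) : Cd lam w = Ioo u v := by
  rw [← h]
  ext x
  constructor
  · intro hx
    have hx' : InR lam w (2, x) := hx
    have h2 := abs_lt.mp hx'.bd.2
    exact ⟨⟨h2.1.le, h2.2.le⟩, hx'⟩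
  · intro hx
    exact hx.2

theorem band (hS : T_SLICE) (hC : T_CURVE) (hC1 : T_CURVE1) : T_BAND := by
  intro lam hl w hw
  obtain ⟨hcurve, _⟩ := hS lam hl 2 (by norm_num)
  obtain ⟨u, v, hu, huv, hv, hset, hc⟩ := hC lam hl _ _ _ hcurve w hw
  have hCd : Cd lam w = Ioo u v := Cd_eq_of_curve hset
  have hlo : lo lam w = u := by
    unfold lo; rw [hCd, csInf_Ioo huv]
  have hhi : hi lam w = v := by
    unfold hi; rw [hCd, csSup_Ioo huv]
  rw [hlo, hhi]
  refine ⟨hu, huv, hv, hCd, hc.cont, hc.xmono, hc.y2, hc.xu, hc.xv, ?_⟩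
  intro s hs
  obtain ⟨b, u', v', e, h1, h2, h3, h4, h5, hset1, _, hb, he, _⟩ := hC1 lam hl _ _ _ hc s hs
  have hCd' : Cd lam (w ++ [s]) = Ioo u' v' := by
    rw [← hset1]
    ext x
    constructor
    · intro hx
      have hx' := (InR_snoc lam w s (2, x)).1 hx
      have hx1 : x ∈ Ioo u v := by rw [← hCd]; exact hx'.1
      exact ⟨Ioo_subset_Icc_self hx1, hx'.2⟩
    · intro hx
      have hx0 : x ∈ Ioo u' v' := by rw [← hset1]; exact hx
      have hx1 : x ∈ Ioo u v := ⟨(h1.trans h2).trans hx0.1, hx0.2.trans (h4.trans h5)⟩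
      rw [← hCd] at hx1
      exact (InR_snoc lam w s (2, x)).2 ⟨hx1, hx.2⟩
  have hlo' : lo lam (w ++ [s]) = u' := by
    unfold lo; rw [hCd', csInf_Ioo h3]
  have hhi' : hi lam (w ++ [s]) = v' := by
    unfold hi; rw [hCd', csSup_Ioo h3]
  rw [hlo', hhi']
  exact ⟨b, e, h1, h2, h4, h5, hb, he⟩

end H31.ST.H33
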