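import Pool.Agent.H31.ST.Basic

/-! COMP for MP_0b97f5_mp.  helper33 -/

open Set Filter Topology Matrix

noncomputable section

namespace H31.ST.H33

open H31.ST

theorem IsChain.mono {K K' : ℝ} (hK1 : 1 ≤ K) (hKK : K ≤ K') {n : ℕ} {x : ℕ → ℝ → ℝ}
    {l h : ℕ → ℝ} (hc : IsChain K n x l h) : IsChain K' n x l h where
  lt := hc.lt
  nl := hc.nl
  nh := hc.nh
  rat := by
    intro j hj
    refine (hc.rat j hj).trans ?_
    have h1 : 0 ≤ h j - l j := by have := hc.lt j hj.le; linarith
    have h2 : 1 / K' ≤ 1 / K := one_div_le_one_div_of_le (by linarith) hKK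
    exact mul_le_mul_of_nonneg_right (by linarith) h1
  cd := hc.cd
  xl := hc.xl
  xh := hc.xh
  pos := hc.pos
  dis := by
    intro j hj t ht
    refine (hc.dis j hj t ht).trans ?_
    exact mul_le_mul_of_nonneg_right hKK (sq_nonneg _)

theorem IsChain.shift {K : ℝ} {n N k : ℕ} {x : ℕ → ℝ → ℝ}
    {l h : ℕ → ℝ} (hN : k + n ≤ N) (hc : IsChain K N x l h) :
    IsChain K n (fun j => x (k + j)) (fun j => l (k + j)) (fun j => h (k + j)) where
  lt := fun j hj => hc.lt (k + j) (by omega)
  nl := fun j hj => hc.nl (k + j) (by omega)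
  nh := fun j hj => hc.nh (k + j) (by omega)
  rat := fun j hj => hc.rat (k + j) (by omega)
  cd := fun j hj => hc.cd (k + j) (by omega)
  xl := fun j hj => hc.xl (k + j) (by omega)
  xh := fun j hj => hc.xh (k + j) (by omega)
  pos := fun j hj => hc.pos (k + j) (by omega)
  dis := fun j hj => hc.dis (k + j) (by omega)

theorem comp (hCh : T_CHAIN) (hCl : T_CLOSE) (hTel : T_TEL) (hB : T_BAND) (hV : T_ADMV) :
    T_COMP := by
  intro lam hl M
  obtain ⟨K0, hK0, hChain⟩ := hCh lam hl
  set K1 : ℝ := max K0 (2 * Real.pi * R lam) with hK1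
  have hK01 : K0 ≤ K1 := le_max_left _ _
  have hK1' : 1 ≤ K1 := hK0.trans hK01
  obtain ⟨C, hC⟩ := hTel K1 hK1'
  refine ⟨4 * Real.exp (|C| * (1 + |M|)), ?_⟩
  intro a a' ha ha' b b' u v s s' hv huv hsum
  obtain ⟨x, hx1, hx2, hx3⟩ := hChain a ha b v s hv
  obtain ⟨y, hy1, hy2, hy3⟩ := hChain a' ha' b' (u ++ v) s' huv
  have hVv : VW v := (hV a ha b v s hv).1
  have hVuv : VW (u ++ v) := (hV a' ha' b' (u ++ v) s' huv).1
  have htake : ∀ j, (u ++ v).take (u.length + j) = u ++ v.take j := by
    intro j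
    exact List.take_length_add_append j
  have hch1 := IsChain.mono hK0 hK01 hx1
  have hch2 := IsChain.mono hK0 hK01 (IsChain.shift (n := v.length) (k := u.length)
    (by simp) hy1)
  simp only [htake] at hch2
  set d : ℕ → ℝ := fun j => deg (v.take (j + 1)) with hd
  set m : ℕ → ℝ := fun j => ((v[j]?.getD ⟨true, 2, 1⟩).m : ℝ) with hm
  have hd1 : ∀ j, 1 ≤ d j := fun j => deg_pos (VW_take hVv _)
  have hm1 : ∀ j, 1 ≤ m j := by
    intro j
    have : 1 ≤ (v[j]?.getD ⟨true, 2, 1⟩).m := by
      by_cases hj : j < v.length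
      · rw [List.getElem?_eq_getElem hj]
        simp only [Option.getD_some]
        have := (hVv v[j] (List.getElem_mem hj)).1
        omega
      · rw [List.getElem?_eq_none (by omega)]
        simp
    show (1 : ℝ) ≤ ((v[j]?.getD ⟨true, 2, 1⟩).m : ℝ)
    exact_mod_cast this
  have hmj : ∀ j (hj : j < v.length), m j = ((v[j]'hj).m : ℝ) := by
    intro j hj
    simp only [hm]
    rw [List.getElem?_eq_getElem hj]
    simp
  have hbandC : ∀ w : List Sym, VW w → Cd lam w = Ioo (lo lam w) (hi lam w) := by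
    intro w hw
    obtain ⟨_, _, _, h4, _⟩ := hB lam hl w hw
    exact h4
  have key := hC v.length x (fun j => y (u.length + j)) (fun j => lo lam (v.take j))
    (fun j => hi lam (v.take j)) (fun j => lo lam (u ++ v.take j))
    (fun j => hi lam (u ++ v.take j)) d m hch1 hch2 hd1 hm1
    (by
      intro j hj t ht
      have h1 := hx3 j hj t ht
      rw [hmj j hj]
      refine h1.trans ?_
      have h2 := (hch1.pos j hj.le t ⟨(hch1.nl j hj).trans ht.1, ht.2.trans (hch1.nh j hj)⟩).le
      have h3 : (0 : ℝ) ≤ ((v[j]'hj).m : ℝ) ^ 3 := by positivity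
      have h4 : K0 * ((v[j]'hj).m : ℝ) ^ 3 ≤ K1 * ((v[j]'hj).m : ℝ) ^ 3 :=
        mul_le_mul_of_nonneg_right hK01 h3
      exact mul_le_mul_of_nonneg_right h4 h2)
    (by
      intro j hj t ht
      have hj' : u.length + j < (u ++ v).length := by simp; omega
      have ht' : t ∈ Icc (lo lam ((u ++ v).take (u.length + j + 1)))
          (hi lam ((u ++ v).take (u.length + j + 1))) := by
        have e : u.length + j + 1 = u.length + (j + 1) := by ring
        rw [e, htake]
        exact ht
      have h1 := hy3 (u.length + j) hj' t ht'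
      have h5 : ((u ++ v)[u.length + j]'hj') = v[j]'hj := by
        rw [List.getElem_append_right (by omega)]
        simp
      rw [h5] at h1
      rw [hmj j hj]
      refine h1.trans ?_
      have h2 := (hch2.pos j hj.le t ⟨(hch2.nl j hj).trans ht.1, ht.2.trans (hch2.nh j hj)⟩).le
      have h3 : (0 : ℝ) ≤ ((v[j]'hj).m : ℝ) ^ 3 := by positivity
      have h4 : K0 * ((v[j]'hj).m : ℝ) ^ 3 ≤ K1 * ((v[j]'hj).m : ℝ) ^ 3 :=
        mul_le_mul_of_nonneg_right hK01 h3
      exact mul_le_mul_of_nonneg_right h4 h2)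
    (by
      intro j hj t ht t' ht' hxx
      have hVw : VW (v.take (j + 1)) := VW_take hVv _
      have hVuw : VW (u ++ v.take (j + 1)) := by
        rw [← htake]; exact VW_take hVuv _
      have hin1 : InR lam (v.take (j + 1)) (2, t) := by
        have : t ∈ Cd lam (v.take (j + 1)) := by rw [hbandC _ hVw]; exact ht
        exact this
      have hin2 : InR lam (u ++ v.take (j + 1)) (2, t') := by
        have : t' ∈ Cd lam (u ++ v.take (j + 1)) := by rw [hbandC _ hVuw]; exact ht'
        exact this
      have hin3 : InR lam (v.take (j + 1)) (run lam u (2, t')) :=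
        ((InR_append lam u _ _).1 hin2).2
      have hIcc : t ∈ Icc (lo lam (v.take (j + 1))) (hi lam (v.take (j + 1))) :=
        Ioo_subset_Icc_self ht
      have hIcc' : t' ∈ Icc (lo lam (u ++ v.take (j + 1))) (hi lam (u ++ v.take (j + 1))) :=
        Ioo_subset_Icc_self ht'
      have hIcc0 : t ∈ Icc (lo lam (v.take j)) (hi lam (v.take j)) :=
        ⟨(hch1.nl j hj).trans hIcc.1, hIcc.2.trans (hch1.nh j hj)⟩
      have hIcc0' : t' ∈ Icc (lo lam (u ++ v.take j)) (hi lam (u ++ v.take j)) :=
        ⟨(hch2.nl j hj).trans hIcc'.1, hIcc'.2.trans (hch2.nh j hj)⟩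
      have e1 : x (j + 1) t = (run lam (v.take (j + 1)) (2, t)).2 := hx2 (j + 1) (by omega) t hIcc
      have e2 : x j t = (run lam (v.take j) (2, t)).2 := hx2 j (by omega) t hIcc0
      have e3 : y (u.length + (j + 1)) t' = (run lam (u ++ v.take (j + 1)) (2, t')).2 := by
        have := hy2 (u.length + (j + 1)) (by simp; omega) t' (by rw [htake]; exact hIcc')
        rw [htake] at this
        exact this
      have e4 : y (u.length + j) t' = (run lam (u ++ v.take j) (2, t')).2 := by
        have := hy2 (u.length + j) (by simp; omega) t' (by rw [htake]; exact hIcc0')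
        rw [htake] at this
        exact this
      have hsplit : v.take (j + 1) = v.take j ++ [v[j]'hj] := by
        rw [List.take_add_one, List.getElem?_eq_getElem hj]
        simp
      have e5 : (run lam (v.take (j + 1)) (2, t)).1 = x j t := by
        rw [hsplit, run_snoc_fst, e2]
      have e6 : (run lam (v.take (j + 1)) (run lam u (2, t'))).1 = y (u.length + j) t' := by
        rw [hsplit, run_snoc_fst, e4, run_append]
      have e7 : (run lam (v.take (j + 1)) (run lam u (2, t'))).2 = y (u.length + (j + 1)) t' := by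
        rw [e3, run_append]
      have hcl := hCl lam hl (v.take (j + 1)) hVw (2, t) (run lam u (2, t')) hin1 hin3 (by
        rw [← e1, e7]
        exact hxx)
      rw [e5, e6, ← e1] at hcl
      exact hcl.trans (le_max_right _ _))
  -- final computation
  have hvn : v.take v.length = v := List.take_length
  have hlo0 : lo lam [] = -2 := by
    obtain ⟨_, _, _, _, _, _, _, h8, _, _⟩ := hB lam hl [] VW_nil
    exact h8
  have hhi0 : hi lam [] = 2 := by
    obtain ⟨_, _, _, _, _, _, _, _, h9, _⟩ := hB lam hl [] VW_nil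
    exact h9
  simp only [hvn, List.take_zero, List.append_nil, hlo0, hhi0] at key
  set Sg : ℝ := ∑ j ∈ Finset.range v.length, m j ^ 3 * d j ^ (-(1 / 3) : ℝ) with hSg
  have hSM : Sg ≤ M := hsum
  have hS0 : 0 ≤ Sg := by
    refine Finset.sum_nonneg fun j _ => ?_
    have h1 := hm1 j
    have h2 := hd1 j
    positivity
  have hexp : Real.exp (C * (1 + Sg)) ≤ Real.exp (|C| * (1 + |M|)) := by
    apply Real.exp_le_exp.mpr
    have h1 : C * (1 + Sg) ≤ |C| * (1 + Sg) :=
      mul_le_mul_of_nonneg_right (le_abs_self C) (by linarith)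
    have h2 : |C| * (1 + Sg) ≤ |C| * (1 + |M|) :=
      mul_le_mul_of_nonneg_left (by have := le_abs_self M; linarith) (abs_nonneg C)
    exact h1.trans h2
  have hVu : VW u := (VW_append.1 hVuv).1
  have hq : 0 ≤ (hi lam (u ++ v) - lo lam (u ++ v)) / (hi lam u - lo lam u) := by
    obtain ⟨_, h2, _⟩ := hB lam hl u hVu
    obtain ⟨_, h3, _⟩ := hB lam hl (u ++ v) hVuv
    apply div_nonneg <;> linarith
  have h4 : (hi lam v - lo lam v) / 4 ≤ Real.exp (|C| * (1 + |M|)) *
      ((hi lam (u ++ v) - lo lam (u ++ v)) / (hi lam u - lo lam u)) := by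
    have e : (2 : ℝ) - -2 = 4 := by norm_num
    rw [e] at key
    exact key.trans (mul_le_mul_of_nonneg_right hexp hq)
  linarith

end H31.ST.H33
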