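import Pool.Agent.H33.ST.ZEROS

/-! PATH for MP_0b97f5_mp.  helper33 -/

open Set Filter Topology Matrix

noncomputable section

namespace H31.ST.H33

open H31.ST

/-- level of a state -/
def level : St → ℕ
  | St.plus k => k + 1
  | St.minus k _ => k + 2

theorem level_of_isTerm {a : ℕ → ℕ} {s : St} {n : ℕ} (h : IsTerm a s n) : n ≤ level s := by
  cases s with
  | plus k =>
    have h' : n = k + 1 := h
    simp [level, h']
  | minus k j =>
    obtain ⟨_, h2⟩ : j = a k ∧ n = k + 2 := h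
    simp [level, h2]

theorem level_step {a : ℕ → ℕ} {s t : St} {σ : Sym} (h : Step a s σ t) :
    level t ≤ level s + 2 := by
  cases h <;> simp [level]

theorem level_le {a : ℕ → ℕ} {b : Bool} {w : List Sym} {s : St} (h : Adm a (rootSt b) w s) :
    level s ≤ 2 + 2 * w.length := by
  induction w using List.reverseRecOn generalizing s with
  | nil =>
    rcases h.snoc_inv with ⟨_, h1⟩ | ⟨w1, σ1, t1, h1, _, _⟩
    · rw [h1]; cases b <;> simp [rootSt, level]
    · simp at h1
  | append_singleton w σ ih =>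
    rcases h.snoc_inv with ⟨h1, _⟩ | ⟨w1, σ1, t1, h1, h2, h3⟩
    · simp at h1
    · obtain ⟨e1, e2⟩ := List.append_inj' h1 rfl
      subst e1
      have h4 := ih h2
      have h5 := level_step h3
      simp only [List.length_append, List.length_singleton]
      omega

/-- good words at the energy `E` -/
def Good (lam : ℝ) (a : ℕ → ℕ) (E : ℝ) (b : Bool) (w : List Sym) : Prop :=
  (∃ s, Adm a (rootSt b) w s) ∧ E - off lam b ∈ Icc (lo lam w) (hi lam w)

theorem Good.pfx (hB : T_BAND) (hV : T_ADMV) {lam : ℝ} (hl : 0 < lam)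
    {a : ℕ → ℕ} (ha : ∀ k, 1 ≤ a k) {E : ℝ} {b : Bool} {w w' : List Sym}
    (h : Good lam a E b (w ++ w')) : Good lam a E b w := by
  induction w' using List.reverseRecOn with
  | nil => simpa using h
  | append_singleton w' σ ih =>
    apply ih
    rw [← List.append_assoc] at h
    obtain ⟨⟨s, hs⟩, hE⟩ := h
    have hVW := (hV a ha b _ s hs).1
    obtain ⟨hVW1, hσ⟩ := VW_snoc.1 hVW
    obtain ⟨t, ht, _⟩ := hs.split
    refine ⟨⟨t, ht⟩, ?_⟩
    obtain ⟨_, _, _, _, _, _, _, _, _, hs'⟩ := hB lam hl (w ++ w') hVW1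
    obtain ⟨b', e', h1, h2, h3, h4, _, _⟩ := hs' σ hσ
    exact ⟨(h1.trans h2).le.trans hE.1, hE.2.trans (h3.trans h4).le⟩

/-- finitely many symbols from each state -/
theorem finite_step (a : ℕ → ℕ) (s : St) : {σ : Sym | ∃ t, Step a s σ t}.Finite := by
  have hfin : ∀ (p : Bool) (m B : ℕ), {σ : Sym | σ.pos = p ∧ σ.m = m ∧ σ.i ≤ B}.Finite := by
    intro p m B
    refine ((Set.finite_Iic B).image (fun i => (⟨p, m, i⟩ : Sym))).subset ?_
    rintro ⟨p', m', i'⟩ ⟨h1, h2, h3⟩
    simp only at h1 h2 h3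
    subst h1; subst h2
    exact ⟨i', h3, rfl⟩
  cases s with
  | plus k =>
    refine ((hfin true (a k) (a k)).union (hfin true (a k + 1) (a k))).subset ?_
    rintro σ ⟨t, h⟩
    rcases h.inv with ⟨k', g1, g2, g3, g4, g5, g6⟩ | ⟨k', g1, g2, g3, g4, g5, g6⟩ |
      ⟨k', j', g1, g2, g3, g4, g5, g6, g7⟩ | ⟨k', g1, g2, g3, g4, g5, g6⟩ |
      ⟨k', g1, g2, g3, g4, g5, g6⟩
    · simp only [St.plus.injEq] at g1
      subst g1
      exact Or.inl ⟨g2, g3, by omega⟩
    · simp only [St.plus.injEq] at g1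
      subst g1
      exact Or.inr ⟨g2, g3, by omega⟩
    · simp at g1
    · simp at g1
    · simp at g1
  | minus k j =>
    refine ((hfin false 2 1).union ((hfin false (a (k + 1) + 1) (a (k + 1))).union
      (hfin false (a (k + 1) + 2) (a (k + 1) + 1)))).subset ?_
    rintro σ ⟨t, h⟩
    rcases h.inv with ⟨k', g1, g2, g3, g4, g5, g6⟩ | ⟨k', g1, g2, g3, g4, g5, g6⟩ |
      ⟨k', j', g1, g2, g3, g4, g5, g6, g7⟩ | ⟨k', g1, g2, g3, g4, g5, g6⟩ |
      ⟨k', g1, g2, g3, g4, g5, g6⟩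
    · simp at g1
    · simp at g1
    · exact Or.inl ⟨g2, g3, by omega⟩
    · simp only [St.minus.injEq] at g1
      obtain ⟨g1, _⟩ := g1
      subst g1
      exact Or.inr (Or.inl ⟨g2, g3, by omega⟩)
    · simp only [St.minus.injEq] at g1
      obtain ⟨g1, _⟩ := g1
      subst g1
      exact Or.inr (Or.inr ⟨g2, g3, by omega⟩)

/-- infinitely extendable words -/
def Ext (lam : ℝ) (a : ℕ → ℕ) (E : ℝ) (b : Bool) (w : List Sym) : Prop :=
  ∀ N : ℕ, ∃ w' : List Sym, N ≤ w'.length ∧ Good lam a E b (w ++ w')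

theorem Ext.next {lam : ℝ} {a : ℕ → ℕ} {E : ℝ} {b : Bool} {w : List Sym}
    (h : Ext lam a E b w) : ∃ σ : Sym, Ext lam a E b (w ++ [σ]) := by
  obtain ⟨w0, _, ⟨s0, hs0⟩, _⟩ := h 0
  obtain ⟨s, hs, _⟩ := hs0.split
  have hfin := finite_step a s
  by_contra hcon
  push Not at hcon
  have hN : ∀ σ : Sym, ∃ N : ℕ, ∀ w' : List Sym, N ≤ w'.length →
      ¬ Good lam a E b ((w ++ [σ]) ++ w') := by
    intro σ
    have := hcon σ
    unfold Ext at this
    push Not at this
    obtain ⟨N, hN⟩ := this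
    exact ⟨N, hN⟩
  choose N hN using hN
  obtain ⟨w', hw', hgood⟩ := h (hfin.toFinset.sup N + 1)
  cases w' with
  | nil => simp at hw'
  | cons σ w'' =>
    have hgood' : Good lam a E b ((w ++ [σ]) ++ w'') := by simpa using hgood
    refine hN σ w'' ?_ hgood'
    have hσ : σ ∈ hfin.toFinset := by
      rw [Set.Finite.mem_toFinset]
      obtain ⟨⟨r, hr⟩, _⟩ := hgood'
      obtain ⟨t, ht, _⟩ := hr.split
      rcases ht.snoc_inv with ⟨h1, _⟩ | ⟨w1, σ1, t1, h1, h2, h3⟩
      · simp at h1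
      · obtain ⟨e1, e2⟩ := List.append_inj' h1 rfl
        obtain rfl : σ = σ1 := by simpa using e2
        subst e1
        have := hs.det h2
        subst this
        exact ⟨t, h3⟩
    have h1 := Finset.le_sup (f := N) hσ
    simp only [List.length_cons] at hw'
    omega

theorem Ext.good (hB : T_BAND) (hV : T_ADMV) {lam : ℝ} (hl : 0 < lam)
    {a : ℕ → ℕ} (ha : ∀ k, 1 ≤ a k) {E : ℝ} {b : Bool} {w : List Sym}
    (h : Ext lam a E b w) : Good lam a E b w := by
  obtain ⟨w', _, hg⟩ := h 0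
  exact hg.pfx hB hV hl ha

/-- the sequence of words -/
theorem exists_seq {lam : ℝ} {a : ℕ → ℕ} {E : ℝ} {b : Bool} (h : Ext lam a E b []) :
    ∃ ξ : ℕ → Sym, ∀ n, Ext lam a E b ((List.range n).map ξ) := by
  have hnext : ∀ p : {w : List Sym // Ext lam a E b w}, ∃ σ : Sym, Ext lam a E b (p.1 ++ [σ]) :=
    fun p => p.2.next
  choose nx hnx using hnext
  let W : ℕ → {w : List Sym // Ext lam a E b w} := fun n =>
    Nat.rec ⟨[], h⟩ (fun _ p => ⟨p.1 ++ [nx p], hnx p⟩) n
  have hW0 : (W 0).1 = [] := rfl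
  have hWs : ∀ n, (W (n + 1)).1 = (W n).1 ++ [nx (W n)] := fun n => rfl
  refine ⟨fun n => nx (W n), ?_⟩
  have hmap : ∀ n, (List.range n).map (fun n => nx (W n)) = (W n).1 := by
    intro n
    induction n with
    | zero => simp [hW0]
    | succ n ih =>
      rw [List.range_succ, List.map_append, ih, hWs]
      simp
  intro n
  rw [hmap]
  exact (W n).2

theorem adm_path {a : ℕ → ℕ} {b : Bool} {ξ : ℕ → Sym} {σ : ℕ → St} (h0 : σ 0 = rootSt b)
    (h : ∀ n, Step a (σ n) (ξ n) (σ (n + 1))) (n : ℕ) :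
    Adm a (rootSt b) ((List.range n).map ξ) (σ n) := by
  induction n with
  | zero => simp only [List.range_zero, List.map_nil]; rw [h0]; exact Adm.nil _
  | succ n ih =>
    rw [List.range_succ, List.map_append]
    exact Adm.snoc ih (h n)

theorem exists_term_of_minus {a : ℕ → ℕ} {ξ : ℕ → Sym} {σ : ℕ → St}
    (h : ∀ n, Step a (σ n) (ξ n) (σ (n + 1))) (k : ℕ) :
    ∀ (d N j : ℕ), σ N = St.minus k j → j + d = a k → ∃ N', IsTerm a (σ N') (k + 2) := by
  intro d
  induction d with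
  | zero =>
    intro N j hN hj
    refine ⟨N, ?_⟩
    rw [hN]
    exact ⟨by omega, rfl⟩
  | succ d ih =>
    intro N j hN hj
    have hs := h N
    rw [hN] at hs
    rcases hs.inv with ⟨k', g1, g2, g3, g4, g5, g6⟩ | ⟨k', g1, g2, g3, g4, g5, g6⟩ |
      ⟨k', j', g1, g2, g3, g4, g5, g6, g7⟩ | ⟨k', g1, g2, g3, g4, g5, g6⟩ |
      ⟨k', g1, g2, g3, g4, g5, g6⟩
    · simp at g1
    · simp at g1
    · simp only [St.minus.injEq] at g1
      obtain ⟨g1, g1'⟩ := g1
      subst g1; subst g1'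
      exact ih (N + 1) (j + 1) g7 (by omega)
    · simp only [St.minus.injEq] at g1
      obtain ⟨g1, g1'⟩ := g1
      subst g1
      omega
    · simp only [St.minus.injEq] at g1
      obtain ⟨g1, g1'⟩ := g1
      subst g1
      omega

theorem exists_term_ge {a : ℕ → ℕ} (ha : ∀ k, 1 ≤ a k) {b : Bool} {ξ : ℕ → Sym} {σ : ℕ → St}
    (h0 : σ 0 = rootSt b) (h : ∀ n, Step a (σ n) (ξ n) (σ (n + 1))) (L : ℕ) :
    ∃ N m, IsTerm a (σ N) m ∧ L ≤ m := by
  induction L with
  | zero =>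
    cases b with
    | false => exact ⟨0, 1, by rw [h0]; rfl, by omega⟩
    | true =>
      obtain ⟨N', hN'⟩ := exists_term_of_minus h 0 (a 0 - 1) 0 1 h0 (by have := ha 0; omega)
      exact ⟨N', 2, hN', by omega⟩
  | succ L ih =>
    obtain ⟨N, m, hm, hL⟩ := ih
    have hs := h N
    have hterm : ∀ k, σ (N + 1) = St.minus k 1 → ∃ N', IsTerm a (σ N') (k + 2) := by
      intro k hk
      exact exists_term_of_minus h k (a k - 1) (N + 1) 1 hk (by have := ha k; omega)
    rcases hs.inv with ⟨k', g1, g2, g3, g4, g5, g6⟩ | ⟨k', g1, g2, g3, g4, g5, g6⟩ |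
      ⟨k', j', g1, g2, g3, g4, g5, g6, g7⟩ | ⟨k', g1, g2, g3, g4, g5, g6⟩ |
      ⟨k', g1, g2, g3, g4, g5, g6⟩
    · rw [g1] at hm
      have hm' : m = k' + 1 := hm
      exact ⟨N + 1, k' + 2, by rw [g4]; rfl, by omega⟩
    · rw [g1] at hm
      have hm' : m = k' + 1 := hm
      obtain ⟨N', hN'⟩ := hterm _ g4
      exact ⟨N', _, hN', by omega⟩
    · rw [g1] at hm
      obtain ⟨hm1, hm2⟩ : j' = a k' ∧ m = k' + 2 := hm
      omega
    · rw [g1] at hm
      obtain ⟨hm1, hm2⟩ : a k' = a k' ∧ m = k' + 2 := hm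
      exact ⟨N + 1, k' + 3, by rw [g6]; rfl, by omega⟩
    · rw [g1] at hm
      obtain ⟨hm1, hm2⟩ : a k' = a k' ∧ m = k' + 2 := hm
      obtain ⟨N', hN'⟩ := hterm _ g6
      exact ⟨N', _, hN', by omega⟩

theorem path (hE : T_ESC) (hCov : T_COVER) (hT : T_TRACK) (hB : T_BAND) (hV : T_ADMV) :
    T_PATH := by
  intro lam hl a ha
  refine ⟨?_, ?_⟩
  · intro E hES
    -- long good words
    have hlong : ∀ N : ℕ, ∃ (b : Bool) (w : List Sym), N ≤ w.length ∧ Good lam a E b w := by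
      intro N
      have h1 : ∃ n, 2 * N + 3 ≤ n ∧ |xt lam a n E| ≤ 2 := by
        rcases hES (2 * N + 3) with h | h
        · exact ⟨_, le_rfl, h⟩
        · exact ⟨2 * N + 3 + 1, by omega, h⟩
      obtain ⟨n, hn, hx⟩ := h1
      obtain ⟨b, w, s, hs, hterm, hI⟩ := hCov lam hl a ha n (by omega) E hx
      refine ⟨b, w, ?_, ⟨s, hs⟩, hI⟩
      have h2 := level_le hs
      have h3 := level_of_isTerm hterm
      omega
    have hroot : ∃ b : Bool, Ext lam a E b [] := by
      by_contra hcon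
      push Not at hcon
      have h1 := hcon false
      have h2 := hcon true
      unfold Ext at h1 h2
      push Not at h1 h2
      obtain ⟨N1, hN1⟩ := h1
      obtain ⟨N2, hN2⟩ := h2
      obtain ⟨b, w, hw, hg⟩ := hlong (max N1 N2)
      cases b with
      | false => exact hN1 w ((le_max_left _ _).trans hw) (by simpa using hg)
      | true => exact hN2 w ((le_max_right _ _).trans hw) (by simpa using hg)
    obtain ⟨b, hb⟩ := hroot
    obtain ⟨ξ, hξ⟩ := exists_seq hb
    have hgood : ∀ n, Good lam a E b ((List.range n).map ξ) := fun n =>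
      (hξ n).good hB hV hl ha
    have hst : ∀ n, ∃ s, Adm a (rootSt b) ((List.range n).map ξ) s := fun n => (hgood n).1
    choose σ hσ using hst
    refine ⟨b, ξ, σ, ?_, ?_, fun n => (hgood n).2⟩
    · rcases (hσ 0).snoc_inv with ⟨_, h1⟩ | ⟨w1, σ1, t1, h1, _, _⟩
      · exact h1
      · simp at h1
    · intro n
      have h1 := hσ (n + 1)
      rw [List.range_succ, List.map_append] at h1
      rcases h1.snoc_inv with ⟨h2, _⟩ | ⟨w1, σ1, t1, h2, h3, h4⟩
      · simp at h2
      · obtain ⟨e1, e2⟩ := List.append_inj' h2 rfl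
        have e3 : ξ n = σ1 := by simpa using e2
        rw [← e1] at h3
        have h5 := (hσ n).det h3
        rw [h5, e3]
        exact h4
  · intro b ξ σ h0 h E hI n
    by_contra hcon
    push Not at hcon
    have hesc := hE lam hl a ha n E hcon.1 hcon.2
    obtain ⟨N, m, hm, hnm⟩ := exists_term_ge ha h0 h n
    have hadm := adm_path h0 h N
    obtain ⟨s₁, s₂, h1, h2, h3⟩ := track_closed hT hB hV hl ha hadm
    have hw := (hV a ha b _ _ hadm).1
    obtain ⟨_, hlt, _, _, _, hmono, _, hx1, hx2, _⟩ := hB lam hl _ hw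
    have h4 := (h3 _ (hI N)).1
    have h5 := congrArg Prod.snd h4
    simp only [sub_add_cancel] at h5
    rw [tQ_term hm] at h5
    have h6 : |(run lam ((List.range N).map ξ) (2, E - off lam b)).2| ≤ 2 := by
      have ha1 := hmono.monotoneOn (left_mem_Icc.mpr hlt.le) (hI N) (hI N).1
      have ha2 := hmono.monotoneOn (hI N) (right_mem_Icc.mpr hlt.le) (hI N).2
      simp only [hx1, hx2] at ha1 ha2
      exact abs_le.mpr ⟨ha1, ha2⟩
    rw [h5, abs_mul] at h6
    have h7 : |s₂| = 1 := by rcases h2 with h2 | h2 <;> rw [h2] <;> simp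
    rw [h7, one_mul] at h6
    exact absurd (hesc m hnm) (not_lt.mpr h6)

end H31.ST.H33
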