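import Pool.Agent.H31.ST.Closure

/-! ZEROS for MP_0b97f5_mp.  helper33 -/

open Set Filter Topology Matrix

noncomputable section

namespace H31.ST.H33

open H31.ST

theorem tQ_term {lam : ℝ} {a : ℕ → ℕ} {s : St} {n : ℕ} (h : IsTerm a s n) (E : ℝ) :
    tQ lam a s E = xt lam a n E := by
  cases s with
  | plus k =>
    have h' : n = k + 1 := h
    subst h'
    rfl
  | minus k j =>
    obtain ⟨h1, h2⟩ : j = a k ∧ n = k + 2 := h
    subst h1; subst h2
    rfl

theorem term_of_isTerm {a : ℕ → ℕ} {s : St} {n : ℕ} (h : IsTerm a s n) : term a s = (n, 0) := by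
  cases s with
  | plus k =>
    have h' : n = k + 1 := h
    subst h'
    rfl
  | minus k j =>
    obtain ⟨h1, h2⟩ : j = a k ∧ n = k + 2 := h
    subst h1; subst h2
    simp [term]

theorem band_zero (hT : T_TRACK) (hB : T_BAND) (hV : T_ADMV) {lam : ℝ} (hl : 0 < lam)
    {a : ℕ → ℕ} (ha : ∀ k, 1 ≤ a k) {b : Bool} {w : List Sym} {s : St}
    (h : Adm a (rootSt b) w s) {n : ℕ} (hn : IsTerm a s n) :
    ∃ E : ℝ, E - off lam b ∈ Cd lam w ∧ xt lam a n E = 0 := by
  obtain ⟨s₁, s₂, h1, h2, h3⟩ := hT lam hl a ha b w s h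
  have hw := (hV a ha b w s h).1
  obtain ⟨_, hlt, _, hCd, hcont, _, _, hx1, hx2, _⟩ := hB lam hl w hw
  have hc2 : ContinuousOn (fun x => (run lam w (2, x)).2) (Icc (lo lam w) (hi lam w)) :=
    continuous_snd.comp_continuousOn hcont
  have hivt := intermediate_value_Ioo hlt.le hc2
  have hmem : (0 : ℝ) ∈ Ioo ((run lam w (2, lo lam w)).2) ((run lam w (2, hi lam w)).2) := by
    rw [hx1, hx2]; constructor <;> norm_num
  obtain ⟨x, hx, hx0⟩ := hivt hmem
  have hxC : x ∈ Cd lam w := by rw [hCd]; exact hx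
  refine ⟨x + off lam b, by simpa using hxC, ?_⟩
  have h4 := (h3 x hxC).1
  have h5 : s₂ * tQ lam a s (x + off lam b) = 0 := by
    have := congrArg Prod.snd h4
    simp only at this hx0
    rw [← this, hx0]
  rw [tQ_term hn] at h5
  rcases mul_eq_zero.mp h5 with h6 | h6
  · rcases h2 with h2 | h2 <;> rw [h2] at h6 <;> norm_num at h6
  · exact h6

theorem zeros (hCo : T_COUNT) (hD : T_DISJ) (hT : T_TRACK) (hB : T_BAND) (hV : T_ADMV) :
    T_ZEROS := by
  intro lam hl a ha n hn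
  obtain ⟨F, hF, hFs⟩ := hCo a ha n hn
  have key : ∀ c : Bool × List Sym, ∃ E : ℝ, c ∈ F → E - off lam c.1 ∈ Cd lam c.2 ∧
      xt lam a n E = 0 := by
    intro c
    by_cases hc : c ∈ F
    · obtain ⟨s, hs1, hs2⟩ := hFs c hc
      obtain ⟨E, hE⟩ := band_zero hT hB hV hl ha hs1 hs2
      exact ⟨E, fun _ => hE⟩
    · exact ⟨0, fun h => absurd h hc⟩
  choose E hE using key
  have hinj : Set.InjOn E F := by
    intro c hc c' hc' hcc
    obtain ⟨s, hs1, hs2⟩ := hFs c hc
    obtain ⟨s', hs1', hs2'⟩ := hFs c' hc'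
    have hterm : term a s = term a s' := by
      rw [term_of_isTerm hs2, term_of_isTerm hs2']
    have h1 := (hE c hc).1
    have h2 := (hE c' hc').1
    rw [← hcc] at h2
    obtain ⟨e1, e2⟩ := hD lam hl a ha c.1 c'.1 c.2 c'.2 s s' hs1 hs1' hterm (E c) h1 h2
    exact Prod.ext e1 e2
  have hcard : (F.image E).card = qd a n := by
    rw [Finset.card_image_of_injOn hinj, hF]
  refine ⟨(F.image E).orderEmbOfFin hcard, ((F.image E).orderEmbOfFin hcard).strictMono, ?_⟩
  intro i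
  have hmem := (F.image E).orderEmbOfFin_mem hcard i
  obtain ⟨c, hc, hce⟩ := Finset.mem_image.mp hmem
  rw [← hce]
  exact (hE c hc).2

end H31.ST.H33
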